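import Mathlib

/-!
# The limiting distribution: existence of the probability measure (Prokhorov)
-/

set_option autoImplicit false

namespace Pool.Agent.Helper16.CR

open Filter Topology MeasureTheory Set

/-- the distribution of `u` on `(0, n + 1]` -/
noncomputable def d5m (u : ℝ → ℝ) (n : ℕ) : Measure ℝ :=
  ENNReal.ofReal (1 / ((n : ℝ) + 1)) • (volume.restrict (Ioc (0 : ℝ) ((n : ℝ) + 1))).map u

theorem d5_prob {u : ℝ → ℝ} (hu : Measurable u) (n : ℕ) : IsProbabilityMeasure (d5m u n) := by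
  refine ⟨?_⟩
  have hn : (0 : ℝ) < (n : ℝ) + 1 := by positivity
  unfold d5m
  rw [Measure.smul_apply, Measure.map_apply hu MeasurableSet.univ, preimage_univ, Measure.restrict_apply_univ, Real.volume_Ioc, sub_zero,
    smul_eq_mul, ← ENNReal.ofReal_mul (by positivity), one_div, inv_mul_cancel₀ hn.ne', ENNReal.ofReal_one]

theorem d5_int {u : ℝ → ℝ} (hu : Measurable u) (n : ℕ) {Φ : ℝ → ℝ} (hΦ : Continuous Φ) :
    ∫ x, Φ x ∂(d5m u n) = (1 / ((n : ℝ) + 1)) * ∫ t in Ioc (0 : ℝ) ((n : ℝ) + 1), Φ (u t) := by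
  unfold d5m
  rw [integral_smul_measure, integral_map hu.aemeasurable hΦ.aestronglyMeasurable, ENNReal.toReal_ofReal (by positivity), smul_eq_mul]

theorem d5_tail {u : ℝ → ℝ} (hu : Measurable u) (K : ℝ) (n : ℕ) (hi : IntegrableOn (fun t => u t ^ 2) (Ioc 0 ((n : ℝ) + 1)))
    (hK : ∫ t in Ioc 0 ((n : ℝ) + 1), u t ^ 2 ≤ K * ((n : ℝ) + 1)) {R : ℝ} (hR : 0 < R) : d5m u n (Icc (-R) R)ᶜ ≤ ENNReal.ofReal (K / R ^ 2) := by
  have hn : (0 : ℝ) < (n : ℝ) + 1 := by positivity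
  have h1 := mul_meas_ge_le_integral_of_nonneg (μ := volume.restrict (Ioc (0 : ℝ) ((n : ℝ) + 1))) (f := fun t => u t ^ 2)
    (Eventually.of_forall fun t => sq_nonneg (u t)) hi (R ^ 2)
  have h2 : (volume.restrict (Ioc (0 : ℝ) ((n : ℝ) + 1))) (u ⁻¹' (Icc (-R) R)ᶜ) ≤
      (volume.restrict (Ioc (0 : ℝ) ((n : ℝ) + 1))) {x | R ^ 2 ≤ u x ^ 2} := by
    refine measure_mono fun t ht => ?_
    have h3 : ¬ |u t| ≤ R := by
      intro h
      exact ht (abs_le.1 h)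
    push Not at h3
    change R ^ 2 ≤ u t ^ 2
    rw [← sq_abs (u t)]
    exact pow_le_pow_left₀ hR.le h3.le 2
  have h3 : (volume.restrict (Ioc (0 : ℝ) ((n : ℝ) + 1))) {x | R ^ 2 ≤ u x ^ 2} ≤ ENNReal.ofReal (K * ((n : ℝ) + 1) / R ^ 2) := by
    rw [← ofReal_measureReal]
    apply ENNReal.ofReal_le_ofReal
    rw [le_div_iff₀ (by positivity)]
    linarith
  unfold d5m
  rw [Measure.smul_apply, Measure.map_apply hu measurableSet_Icc.compl, smul_eq_mul]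
  refine (mul_le_mul_right (h2.trans h3) _).trans ?_
  rw [← ENNReal.ofReal_mul (by positivity)]
  apply ENNReal.ofReal_le_ofReal
  apply le_of_eq
  field_simp

/-- D5. The limiting distribution. -/
theorem exists_law {u : ℝ → ℝ} (hu : Measurable u) (K : ℝ)
    (hK : ∀ T : ℝ, 1 ≤ T → IntegrableOn (fun t => u t ^ 2) (Ioc 0 T) ∧ ∫ t in Ioc 0 T, u t ^ 2 ≤ K * T)
    (hmean : ∀ Φ : ℝ → ℝ, Continuous Φ → (∃ M : ℝ, ∀ x, |Φ x| ≤ M) →
      ∃ l : ℝ, Tendsto (fun T => (1 / T) * ∫ t in Ioc 0 T, Φ (u t)) atTop (𝓝 l)) :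
    ∃ μ : ProbabilityMeasure ℝ, ∀ Φ : ℝ → ℝ, Continuous Φ → (∃ M : ℝ, ∀ x, |Φ x| ≤ M) →
      Tendsto (fun T => (1 / T) * ∫ t in Ioc 0 T, Φ (u t)) atTop (𝓝 (∫ x, Φ x ∂(μ : Measure ℝ))) := by
  have hK0 : 0 ≤ K := by
    have h1 := (hK 1 le_rfl).2
    have h2 : 0 ≤ ∫ t in Ioc (0 : ℝ) 1, u t ^ 2 := integral_nonneg fun t => sq_nonneg (u t)
    linarith
  set ν : ℕ → ProbabilityMeasure ℝ := fun n => ⟨d5m u n, d5_prob hu n⟩ with hν
  have htight : IsTightMeasureSet {((μ : ProbabilityMeasure ℝ) : Measure ℝ) | μ ∈ range ν} := by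
    rw [isTightMeasureSet_iff_exists_isCompact_measure_compl_le]
    intro ε hε
    obtain ⟨r, hr0, hr⟩ := ENNReal.lt_iff_exists_nnreal_btwn.1 hε
    have hr0' : (0 : ℝ) < r := by exact_mod_cast hr0
    refine ⟨Icc (-√((K + 1) / r)) (√((K + 1) / r)), isCompact_Icc, ?_⟩
    rintro _ ⟨_, ⟨n, rfl⟩, rfl⟩
    have h1 := hK ((n : ℝ) + 1) (by
      have : (0 : ℝ) ≤ n := Nat.cast_nonneg n
      linarith)
    have h2 := d5_tail hu K n h1.1 h1.2 (R := √((K + 1) / r)) (by positivity)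
    refine h2.trans (le_trans ?_ hr.le)
    rw [Real.sq_sqrt (by positivity)]
    have h3 : ENNReal.ofReal (K / ((K + 1) / r)) ≤ ENNReal.ofReal r := by
      apply ENNReal.ofReal_le_ofReal
      rw [div_div_eq_mul_div, div_le_iff₀ (by positivity)]
      nlinarith
    rwa [ENNReal.ofReal_coe_nnreal] at h3
  have hcomp : IsCompact (closure (range ν)) := isCompact_closure_of_isTightMeasureSet htight
  obtain ⟨μ, -, hμ⟩ := hcomp.ultrafilter_le_nhds ((Ultrafilter.of (atTop : Filter ℕ)).map ν) (by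
    refine le_trans ?_ (monotone_principal subset_closure)
    rw [le_principal_iff]
    exact (Filter.range_mem_map : range ν ∈ Filter.map ν (Ultrafilter.of (atTop : Filter ℕ) : Filter ℕ)))
  have hμ' : Tendsto ν (Ultrafilter.of (atTop : Filter ℕ) : Filter ℕ) (𝓝 μ) := hμ
  refine ⟨μ, fun Φ hΦ hb => ?_⟩
  obtain ⟨l, hl⟩ := hmean Φ hΦ hb
  obtain ⟨M, hM⟩ := hb
  have h1 := (ProbabilityMeasure.tendsto_iff_forall_integral_tendsto.1 hμ')
    (BoundedContinuousFunction.ofNormedAddCommGroup Φ hΦ M fun x => by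
      rw [Real.norm_eq_abs]
      exact hM x)
  have h2 : Tendsto (fun n : ℕ => ((n : ℝ) + 1)) (Ultrafilter.of (atTop : Filter ℕ) : Filter ℕ) atTop := by
    have h3 : Tendsto (fun n : ℕ => ((n : ℝ) + 1)) atTop atTop := tendsto_atTop_add_const_right _ _ tendsto_natCast_atTop_atTop
    exact h3.mono_left (Ultrafilter.of_le _)
  have h4 := hl.comp h2
  have h5 : Tendsto (fun n : ℕ => ∫ x, Φ x ∂(d5m u n)) (Ultrafilter.of (atTop : Filter ℕ) : Filter ℕ) (𝓝 (∫ x, Φ x ∂(μ : Measure ℝ))) := h1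
  have h6 : (fun n : ℕ => ∫ x, Φ x ∂(d5m u n)) = (fun T => (1 / T) * ∫ t in Ioc 0 T, Φ (u t)) ∘ fun n : ℕ => ((n : ℝ) + 1) := by
    funext n
    exact d5_int hu n hΦ
  rw [h6] at h5
  rw [← tendsto_nhds_unique h4 h5]
  exact hl

end Pool.Agent.Helper16.CR
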