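import Pool.Agent.Helper29.CR.D3
import Pool.Agent.Helper85.CR.D5

/-!
# The limiting distribution against continuous functions of quadratic growth

`u = P + e` with a bounded `P` and the mean of `e ^ 2` small: `(u ^ 2 - R)_+ ≤ 2 e ^ 2` for `R ≥ 2 sup P ^ 2`, so `u ^ 2` is uniformly integrable.
-/

set_option autoImplicit false

namespace Pool.Agent.Helper16.CR

open Complex Filter Topology MeasureTheory Set

theorem d6_approx {u : ℝ → ℝ} (hu : Measurable u)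
    (hap : ∀ e : ℝ, 0 < e → ∃ (s : Finset ℝ) (c : ℝ → ℂ), ∀ᶠ T : ℝ in atTop,
      IntegrableOn (fun t => ‖(u t : ℂ) - ∑ γ ∈ s, c γ * cexp (((γ * t : ℝ) : ℂ) * I)‖ ^ 2) (Ioc 0 T) ∧
      (1 / T) * ∫ t in Ioc 0 T, ‖(u t : ℂ) - ∑ γ ∈ s, c γ * cexp (((γ * t : ℝ) : ℂ) * I)‖ ^ 2 ≤ e) (e : ℝ) (he : 0 < e) :
    ∃ (P : ℝ → ℝ) (M : ℝ), Continuous P ∧ 0 ≤ M ∧ (∀ t, |P t| ≤ M) ∧ ∀ᶠ T : ℝ in atTop,
      IntegrableOn (fun t => (u t - P t) ^ 2) (Ioc 0 T) ∧ (1 / T) * ∫ t in Ioc 0 T, (u t - P t) ^ 2 ≤ e := by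
  obtain ⟨s, c, h⟩ := hap e he
  set Q : ℝ → ℂ := fun t => ∑ γ ∈ s, c γ * cexp (((γ * t : ℝ) : ℂ) * I) with hQ
  have hQc : Continuous Q := by
    rw [hQ]
    fun_prop
  have hPc : Continuous fun t => (Q t).re := continuous_re.comp hQc
  have hQb : ∀ t, ‖Q t‖ ≤ ∑ γ ∈ s, ‖c γ‖ := by
    intro t
    refine (norm_sum_le _ _).trans (Finset.sum_le_sum fun γ _ => ?_)
    rw [norm_mul, Complex.norm_exp_ofReal_mul_I, mul_one]
  have hle : ∀ t, (u t - (Q t).re) ^ 2 ≤ ‖(u t : ℂ) - Q t‖ ^ 2 := by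
    intro t
    have h1 : |((u t : ℂ) - Q t).re| ≤ ‖(u t : ℂ) - Q t‖ := abs_re_le_norm _
    rw [sub_re, ofReal_re] at h1
    rw [← sq_abs]
    exact pow_le_pow_left₀ (abs_nonneg _) h1 2
  refine ⟨fun t => (Q t).re, ∑ γ ∈ s, ‖c γ‖, hPc, Finset.sum_nonneg fun _ _ => norm_nonneg _, fun t => (abs_re_le_norm _).trans (hQb t), ?_⟩
  filter_upwards [h, eventually_gt_atTop 0] with T hT hT0
  have i1 : IntegrableOn (fun t => (u t - (Q t).re) ^ 2) (Ioc 0 T) := by
    refine Integrable.mono' hT.1 ((hu.sub hPc.measurable).pow_const 2).aestronglyMeasurable (Eventually.of_forall fun t => ?_)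
    rw [Real.norm_eq_abs, abs_of_nonneg (sq_nonneg _)]
    exact hle t
  refine ⟨i1, le_trans (mul_le_mul_of_nonneg_left ?_ (by positivity)) hT.2⟩
  exact integral_mono i1 hT.1 hle

/-- the excess of the square -/
def ex (R y : ℝ) : ℝ := max 0 (y ^ 2 - R)

theorem ex_cont (R : ℝ) : Continuous (ex R) := by
  unfold ex
  fun_prop

theorem ex_nonneg (R y : ℝ) : 0 ≤ ex R y := le_max_left _ _

theorem ex_le {R y p M : ℝ} (hp : |p| ≤ M) (hR : 2 * M ^ 2 ≤ R) : ex R y ≤ 2 * (y - p) ^ 2 := by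
  unfold ex
  have h2 : p ^ 2 ≤ M ^ 2 := by
    rw [← sq_abs]
    exact pow_le_pow_left₀ (abs_nonneg _) hp 2
  refine max_le (by positivity) ?_
  nlinarith [sq_nonneg (y - 2 * p)]

section

variable {u : ℝ → ℝ} {μ : Measure ℝ} [IsProbabilityMeasure μ]

/-- Fatou for the law -/
theorem d6_fatou (hu : Measurable u)
    (hlaw : ∀ Φ : ℝ → ℝ, Continuous Φ → (∃ M : ℝ, ∀ x, |Φ x| ≤ M) → Tendsto (fun T : ℝ => (1 / T) * ∫ t in Ioc 0 T, Φ (u t)) atTop (𝓝 (∫ x, Φ x ∂μ)))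
    {g : ℝ → ℝ} (hg : Continuous g) (hg0 : ∀ y, 0 ≤ g y) {B : ℝ}
    (hB : ∀ᶠ T : ℝ in atTop, IntegrableOn (fun t => g (u t)) (Ioc 0 T) ∧ (1 / T) * ∫ t in Ioc 0 T, g (u t) ≤ B) :
    Integrable g μ ∧ ∫ y, g y ∂μ ≤ B := by
  have hn : ∀ n : ℕ, ∫ y, min (g y) n ∂μ ≤ B := by
    intro n
    have hb : ∀ y, |min (g y) n| ≤ n := fun y => by
      rw [abs_of_nonneg (le_min (hg0 y) (Nat.cast_nonneg n))]
      exact min_le_right _ _
    refine le_of_tendsto (hlaw (fun y => min (g y) n) (by fun_prop) ⟨n, hb⟩) ?_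
    filter_upwards [hB, eventually_gt_atTop 0] with T hT hT0
    refine le_trans (mul_le_mul_of_nonneg_left ?_ (by positivity)) hT.2
    refine integral_mono ?_ hT.1 fun t => min_le_left _ _
    refine Integrable.mono' hT.1 ((hg.measurable.comp hu).min measurable_const).aestronglyMeasurable (Eventually.of_forall fun t => ?_)
    rw [Real.norm_eq_abs, abs_of_nonneg (le_min (hg0 _) (Nat.cast_nonneg n))]
    exact min_le_left _ _
  have hB0 : 0 ≤ B := by
    have h1 := hn 0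
    have h2 : 0 ≤ ∫ y, min (g y) (0 : ℕ) ∂μ := integral_nonneg fun y => le_min (hg0 y) (by simp)
    linarith
  have hi : ∀ n : ℕ, Integrable (fun y => min (g y) n) μ := by
    intro n
    refine Integrable.mono' (g := fun _ => (n : ℝ)) (integrable_const _) (hg.measurable.min measurable_const).aestronglyMeasurable
      (Eventually.of_forall fun y => ?_)
    rw [Real.norm_eq_abs, abs_of_nonneg (le_min (hg0 y) (Nat.cast_nonneg n))]
    exact min_le_right _ _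
  have hlim : Tendsto (fun n : ℕ => ∫⁻ y, ENNReal.ofReal (min (g y) n) ∂μ) atTop (𝓝 (∫⁻ y, ENNReal.ofReal (g y) ∂μ)) := by
    refine lintegral_tendsto_of_tendsto_of_monotone (fun n => (hg.measurable.min measurable_const).ennreal_ofReal.aemeasurable) ?_ ?_
    · refine Eventually.of_forall fun y a b hab => ?_
      apply ENNReal.ofReal_le_ofReal
      exact min_le_min le_rfl (by exact_mod_cast hab)
    · refine Eventually.of_forall fun y => ?_
      refine tendsto_const_nhds.congr' ?_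
      obtain ⟨N, hN⟩ := exists_nat_ge (g y)
      filter_upwards [eventually_ge_atTop N] with n hn
      have : (N : ℝ) ≤ n := by exact_mod_cast hn
      rw [min_eq_left (hN.trans this)]
  have hle : ∫⁻ y, ENNReal.ofReal (g y) ∂μ ≤ ENNReal.ofReal B := by
    refine le_of_tendsto hlim (Eventually.of_forall fun n => ?_)
    rw [← ofReal_integral_eq_lintegral_ofReal (hi n) (Eventually.of_forall fun y => le_min (hg0 y) (Nat.cast_nonneg n))]
    exact ENNReal.ofReal_le_ofReal (hn n)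
  have hint : Integrable g μ := by
    refine ⟨hg.aestronglyMeasurable, ?_⟩
    rw [hasFiniteIntegral_iff_ofReal (Eventually.of_forall hg0)]
    exact hle.trans_lt ENNReal.ofReal_lt_top
  refine ⟨hint, ?_⟩
  rw [← ofReal_integral_eq_lintegral_ofReal hint (Eventually.of_forall hg0)] at hle
  exact (ENNReal.ofReal_le_ofReal_iff hB0).1 hle

end

/-- D6. The limiting distribution, continuous functions of quadratic growth. -/
theorem law_quad {u : ℝ → ℝ} (hu : Measurable u)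
    (hap : ∀ e : ℝ, 0 < e → ∃ (s : Finset ℝ) (c : ℝ → ℂ), ∀ᶠ T : ℝ in atTop,
      IntegrableOn (fun t => ‖(u t : ℂ) - ∑ γ ∈ s, c γ * cexp (((γ * t : ℝ) : ℂ) * I)‖ ^ 2) (Ioc 0 T) ∧
      (1 / T) * ∫ t in Ioc 0 T, ‖(u t : ℂ) - ∑ γ ∈ s, c γ * cexp (((γ * t : ℝ) : ℂ) * I)‖ ^ 2 ≤ e) :
    ∃ μ : Measure ℝ, IsProbabilityMeasure μ ∧ Integrable (fun y : ℝ => y ^ 2) μ ∧
      ∀ Φ : ℝ → ℝ, Continuous Φ → (∃ C : ℝ, ∀ y, |Φ y| ≤ C * (1 + y ^ 2)) →
        Tendsto (fun T : ℝ => (1 / T) * ∫ t in Ioc 0 T, Φ (u t)) atTop (𝓝 (∫ y, Φ y ∂μ)) := by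
  have happ := d6_approx hu hap
  -- square integrability
  have hi : ∀ T, IntegrableOn (fun t => u t ^ 2) (Ioc 0 T) := by
    intro T
    obtain ⟨P, M, hPc, hM, hPM, h⟩ := happ 1 one_pos
    obtain ⟨T', hT', hTT'⟩ := (h.and (eventually_ge_atTop T)).exists
    have i1 : IntegrableOn (fun t => 2 * (u t - P t) ^ 2 + 2 * M ^ 2) (Ioc 0 T') := (hT'.1.const_mul 2).add continuous_const.integrableOn_Ioc
    have i2 : IntegrableOn (fun t => u t ^ 2) (Ioc 0 T') := by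
      refine Integrable.mono' i1 (hu.pow_const 2).aestronglyMeasurable (Eventually.of_forall fun t => ?_)
      rw [Real.norm_eq_abs, abs_of_nonneg (sq_nonneg _)]
      have h2 : P t ^ 2 ≤ M ^ 2 := by
        rw [← sq_abs]
        exact pow_le_pow_left₀ (abs_nonneg _) (hPM t) 2
      nlinarith [sq_nonneg (u t - 2 * P t)]
    exact i2.mono_set (Ioc_subset_Ioc_right hTT')
  have hex : ∀ e : ℝ, 0 < e → ∃ R0 : ℝ, 0 ≤ R0 ∧ ∀ R, R0 ≤ R → ∀ᶠ T : ℝ in atTop, (1 / T) * ∫ t in Ioc 0 T, ex R (u t) ≤ 2 * e := by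
    intro e he
    obtain ⟨P, M, hPc, hM, hPM, h⟩ := happ e he
    refine ⟨2 * M ^ 2, by positivity, fun R hR => ?_⟩
    filter_upwards [h, eventually_gt_atTop 0] with T hT hT0
    have i1 : IntegrableOn (fun t => 2 * (u t - P t) ^ 2) (Ioc 0 T) := hT.1.const_mul 2
    have i2 : IntegrableOn (fun t => ex R (u t)) (Ioc 0 T) := by
      refine Integrable.mono' i1 ((ex_cont R).measurable.comp hu).aestronglyMeasurable (Eventually.of_forall fun t => ?_)
      rw [Real.norm_eq_abs, abs_of_nonneg (ex_nonneg _ _)]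
      exact ex_le (hPM t) hR
    have h1 : ∫ t in Ioc 0 T, ex R (u t) ≤ 2 * ∫ t in Ioc 0 T, (u t - P t) ^ 2 := by
      rw [← integral_const_mul]
      exact integral_mono i2 i1 fun t => ex_le (hPM t) hR
    have h2 := hT.2
    rw [one_div, inv_mul_le_iff₀ hT0] at h2 ⊢
    linarith
  have iex : ∀ R, 0 ≤ R → ∀ T, IntegrableOn (fun t => ex R (u t)) (Ioc 0 T) := by
    intro R hR T
    refine Integrable.mono' (hi T) ((ex_cont R).measurable.comp hu).aestronglyMeasurable (Eventually.of_forall fun t => ?_)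
    rw [Real.norm_eq_abs, abs_of_nonneg (ex_nonneg _ _)]
    unfold ex
    exact max_le (sq_nonneg _) (by linarith)
  -- the second moment
  obtain ⟨B, hB⟩ : ∃ B : ℝ, ∀ᶠ T : ℝ in atTop, (1 / T) * ∫ t in Ioc 0 T, u t ^ 2 ≤ B := by
    obtain ⟨R0, hR0, h⟩ := hex 1 one_pos
    refine ⟨2 * 1 + R0, ?_⟩
    filter_upwards [h R0 le_rfl, eventually_gt_atTop 0] with T hT hT0
    have i3 : IntegrableOn (fun _ : ℝ => R0) (Ioc 0 T) := continuous_const.integrableOn_Ioc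
    have h1 : ∫ t in Ioc 0 T, u t ^ 2 ≤ ∫ t in Ioc 0 T, (ex R0 (u t) + R0) := by
      refine integral_mono (hi T) ((iex R0 hR0 T).add i3) fun t => ?_
      simp only
      have := le_max_right (0 : ℝ) (u t ^ 2 - R0)
      unfold ex
      linarith
    have h2 : ∫ t in Ioc 0 T, (ex R0 (u t) + R0) = (∫ t in Ioc 0 T, ex R0 (u t)) + R0 * T := by
      rw [integral_add (iex R0 hR0 T) i3]
      congr 1
      simp [hT0.le]
      ring
    rw [h2] at h1
    rw [one_div, inv_mul_le_iff₀ hT0] at hT ⊢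
    linarith
  obtain ⟨K, hK⟩ : ∃ K : ℝ, ∀ T : ℝ, 1 ≤ T → IntegrableOn (fun t => u t ^ 2) (Ioc 0 T) ∧ ∫ t in Ioc 0 T, u t ^ 2 ≤ K * T := by
    obtain ⟨T0, hT0⟩ := eventually_atTop.1 (hB.and (eventually_gt_atTop 0))
    refine ⟨max B (∫ t in Ioc 0 T0, u t ^ 2), fun T hT => ⟨hi T, ?_⟩⟩
    have hJ : 0 ≤ ∫ t in Ioc 0 T0, u t ^ 2 := integral_nonneg fun t => sq_nonneg (u t)
    rcases le_total T0 T with h | h
    · have h1 := (hT0 T h).1
      have h0 : 0 < T := by linarith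
      rw [one_div, inv_mul_le_iff₀ h0] at h1
      have := mul_le_mul_of_nonneg_right (le_max_left B (∫ t in Ioc 0 T0, u t ^ 2)) h0.le
      linarith
    · have h1 : ∫ t in Ioc 0 T, u t ^ 2 ≤ ∫ t in Ioc 0 T0, u t ^ 2 :=
        setIntegral_mono_set (hi T0) (Eventually.of_forall fun t => sq_nonneg (u t)) (Ioc_subset_Ioc_right h).eventuallyLE
      have h2 := le_max_right B (∫ t in Ioc 0 T0, u t ^ 2)
      have h3 : 0 ≤ max B (∫ t in Ioc 0 T0, u t ^ 2) := hJ.trans h2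
      nlinarith
  obtain ⟨μ, hμ⟩ := exists_law hu K hK fun Φ hΦ hM => by
    obtain ⟨M, hM⟩ := hM
    exact mean_of_ap hu hap Φ hΦ M hM
  have hsq := d6_fatou (μ := (μ : Measure ℝ)) hu hμ (g := fun y => y ^ 2) (by fun_prop) (fun y => sq_nonneg y) (B := B)
    (hB.mono fun T hT => ⟨hi T, hT⟩)
  refine ⟨μ, inferInstance, hsq.1, fun Φ hΦ hC => ?_⟩
  obtain ⟨C, hC⟩ := hC
  have hC0 : 0 ≤ C := by
    have := (abs_nonneg _).trans (hC 0)
    simpa using this
  have iΦu : ∀ T, IntegrableOn (fun t => Φ (u t)) (Ioc 0 T) := by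
    intro T
    have i1 : IntegrableOn (fun t => C * (1 + u t ^ 2)) (Ioc 0 T) := by
      have i0 : IntegrableOn (fun _ : ℝ => (1 : ℝ)) (Ioc 0 T) := continuous_const.integrableOn_Ioc
      exact (i0.add (hi T)).const_mul C
    refine Integrable.mono' i1 (hΦ.measurable.comp hu).aestronglyMeasurable (Eventually.of_forall fun t => ?_)
    rw [Real.norm_eq_abs]
    exact hC _
  have iΦμ : Integrable Φ (μ : Measure ℝ) := by
    refine Integrable.mono' (((integrable_const (1 : ℝ)).add hsq.1).const_mul C) hΦ.aestronglyMeasurable (Eventually.of_forall fun y => ?_)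
    rw [Real.norm_eq_abs]
    exact hC y
  rw [Metric.tendsto_nhds]
  intro η hη
  obtain ⟨e, he, heη⟩ : ∃ e : ℝ, 0 < e ∧ 16 * C * e ≤ η / 4 := by
    refine ⟨η / (64 * (C + 1)), by positivity, ?_⟩
    rw [mul_div_assoc', div_le_iff₀ (by positivity)]
    nlinarith
  obtain ⟨R0, hR0, hexe⟩ := hex e he
  obtain ⟨R, hR1, hRR⟩ : ∃ R : ℝ, 1 ≤ R ∧ R0 ≤ R ^ 2 / 2 := by
    refine ⟨R0 + 2, by linarith, ?_⟩
    nlinarith
  set Ψ : ℝ → ℝ := fun y => Φ (max (-R) (min R y)) with hΨ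
  have hΨc : Continuous Ψ := by
    rw [hΨ]
    fun_prop
  have hΨb : ∀ y, |Ψ y| ≤ C * (1 + R ^ 2) := by
    intro y
    refine (hC _).trans (mul_le_mul_of_nonneg_left ?_ hC0)
    have h1 : -R ≤ max (-R) (min R y) := le_max_left _ _
    have h2 : max (-R) (min R y) ≤ R := max_le (by linarith) (min_le_left _ _)
    nlinarith
  have hdiff : ∀ y, |Φ y - Ψ y| ≤ 8 * C * ex (R ^ 2 / 2) y := by
    intro y
    by_cases hy : |y| ≤ R
    · have h1 := abs_le.1 hy
      have h2 : Ψ y = Φ y := by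
        simp only [hΨ]
        rw [min_eq_right h1.2, max_eq_right h1.1]
      rw [h2, sub_self, abs_zero]
      exact mul_nonneg (by positivity) (ex_nonneg _ _)
    · push Not at hy
      have h1 : R ^ 2 < y ^ 2 := by
        rw [← sq_abs y]
        exact pow_lt_pow_left₀ hy (by linarith) (by norm_num)
      have h2 : |Φ y - Ψ y| ≤ C * (1 + y ^ 2) + C * (1 + R ^ 2) := (abs_sub _ _).trans (add_le_add (hC y) (hΨb y))
      have h3 : y ^ 2 - R ^ 2 / 2 ≤ ex (R ^ 2 / 2) y := le_max_right _ _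
      have h4 : C * (1 + y ^ 2) + C * (1 + R ^ 2) ≤ 8 * C * (y ^ 2 - R ^ 2 / 2) := by
        have h5 : 0 ≤ C * (8 * (y ^ 2 - R ^ 2 / 2) - (1 + y ^ 2) - (1 + R ^ 2)) := mul_nonneg hC0 (by nlinarith)
        linarith
      have h6 : 8 * C * (y ^ 2 - R ^ 2 / 2) ≤ 8 * C * ex (R ^ 2 / 2) y := mul_le_mul_of_nonneg_left h3 (by positivity)
      linarith
  have hR2 : 0 ≤ R ^ 2 / 2 := by positivity
  have hexμ := d6_fatou (μ := (μ : Measure ℝ)) hu hμ (g := ex (R ^ 2 / 2)) (ex_cont _) (ex_nonneg _) (B := 2 * e)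
    ((hexe _ hRR).mono fun T hT => ⟨iex _ hR2 T, hT⟩)
  have iΨμ : Integrable Ψ (μ : Measure ℝ) := by
    refine Integrable.mono' (g := fun _ => C * (1 + R ^ 2)) (integrable_const _) hΨc.aestronglyMeasurable (Eventually.of_forall fun y => ?_)
    rw [Real.norm_eq_abs]
    exact hΨb y
  have hd2 : |∫ y, Φ y ∂(μ : Measure ℝ) - ∫ y, Ψ y ∂(μ : Measure ℝ)| ≤ η / 4 := by
    rw [← integral_sub iΦμ iΨμ]
    refine (abs_integral_le_integral_abs).trans ?_
    have h1 : ∫ y, |Φ y - Ψ y| ∂(μ : Measure ℝ) ≤ ∫ y, 8 * C * ex (R ^ 2 / 2) y ∂(μ : Measure ℝ) :=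
      integral_mono (iΦμ.sub iΨμ).abs (hexμ.1.const_mul _) hdiff
    rw [integral_const_mul] at h1
    have h2 : 8 * C * ∫ y, ex (R ^ 2 / 2) y ∂(μ : Measure ℝ) ≤ 8 * C * (2 * e) := mul_le_mul_of_nonneg_left hexμ.2 (by positivity)
    linarith
  have hlim := Metric.tendsto_nhds.1 (hμ Ψ hΨc ⟨_, hΨb⟩) (η / 4) (by positivity)
  filter_upwards [hlim, hexe _ hRR, eventually_gt_atTop 0] with T h1 h2 hT0
  have iΨu : IntegrableOn (fun t => Ψ (u t)) (Ioc 0 T) := by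
    refine Integrable.mono' (g := fun _ => C * (1 + R ^ 2)) continuous_const.integrableOn_Ioc (hΨc.measurable.comp hu).aestronglyMeasurable
      (Eventually.of_forall fun t => ?_)
    rw [Real.norm_eq_abs]
    exact hΨb _
  have h3 : |(1 / T) * (∫ t in Ioc 0 T, Φ (u t)) - (1 / T) * ∫ t in Ioc 0 T, Ψ (u t)| ≤ η / 4 := by
    rw [← mul_sub, ← integral_sub (iΦu T) iΨu, abs_mul, abs_of_pos (by positivity : 0 < 1 / T)]
    have h4 : |∫ t in Ioc 0 T, (Φ (u t) - Ψ (u t))| ≤ 8 * C * ∫ t in Ioc 0 T, ex (R ^ 2 / 2) (u t) := by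
      refine (abs_integral_le_integral_abs).trans ?_
      rw [← integral_const_mul]
      exact integral_mono ((iΦu T).sub iΨu).abs ((iex _ hR2 T).const_mul _) fun t => hdiff _
    have h5 : (1 / T) * |∫ t in Ioc 0 T, (Φ (u t) - Ψ (u t))| ≤ 8 * C * ((1 / T) * ∫ t in Ioc 0 T, ex (R ^ 2 / 2) (u t)) := by
      have := mul_le_mul_of_nonneg_left h4 (by positivity : 0 ≤ 1 / T)
      linarith
    have h6 : 8 * C * ((1 / T) * ∫ t in Ioc 0 T, ex (R ^ 2 / 2) (u t)) ≤ 8 * C * (2 * e) := mul_le_mul_of_nonneg_left h2 (by positivity)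
    linarith
  rw [Real.dist_eq] at h1 ⊢
  rw [abs_lt] at h1 ⊢
  rw [abs_le] at h3 hd2
  constructor <;> linarith [h1.1, h1.2, h3.1, h3.2, hd2.1, hd2.2]

end Pool.Agent.Helper16.CR
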