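import Mathlib

/-!
# Limiting distributions of functions which are almost periodic in the mean square (abstract)
-/

set_option autoImplicit false

namespace Pool.Agent.Helper85.CR

open Filter Topology MeasureTheory Set Complex

/-- the mean value over `(0, T]` -/
noncomputable def mn (f : ℝ → ℝ) (T : ℝ) : ℝ := (1 / T) * ∫ t in Ioc 0 T, f t

theorem mn_close {f : ℝ → ℝ} (h : ∀ η : ℝ, 0 < η → ∃ g : ℝ → ℝ, (∃ l, Tendsto (mn g) atTop (𝓝 l)) ∧ ∀ᶠ T in atTop, |mn f T - mn g T| ≤ η) :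
    ∃ l, Tendsto (mn f) atTop (𝓝 l) := by
  apply cauchySeq_tendsto_of_complete
  rw [Metric.cauchySeq_iff]
  intro ε hε
  obtain ⟨g, ⟨l, hl⟩, hg⟩ := h (ε / 4) (by positivity)
  obtain ⟨N1, h1⟩ := eventually_atTop.1 hg
  obtain ⟨N2, h2⟩ := Metric.cauchySeq_iff.1 hl.cauchySeq (ε / 4) (by positivity)
  refine ⟨max N1 N2, fun m hm n hn => ?_⟩
  have a1 := h1 m ((le_max_left _ _).trans hm)
  have a2 := h1 n ((le_max_left _ _).trans hn)
  have a3 := h2 m ((le_max_right _ _).trans hm) n ((le_max_right _ _).trans hn)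
  rw [Real.dist_eq] at a3 ⊢
  rw [abs_le] at a1 a2
  rw [abs_lt] at a3 ⊢
  constructor <;> linarith [a1.1, a1.2, a2.1, a2.2, a3.1, a3.2]

/-- the characters -/
noncomputable def ee (γ : ℝ) : ℝ → ℂ := fun t => cexp (γ * t * I)

theorem ee_mul (a b : ℝ) : ee a * ee b = ee (a + b) := by
  funext t
  simp only [ee, Pi.mul_apply]
  rw [← Complex.exp_add]
  congr 1
  push_cast
  ring

theorem ee_zero : ee 0 = 1 := by
  funext t
  simp [ee]

/-- trigonometric polynomials -/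
noncomputable def TP : Submodule ℂ (ℝ → ℂ) := Submodule.span ℂ (range ee)

theorem tp_mul {f g : ℝ → ℂ} (hf : f ∈ TP) (hg : g ∈ TP) : f * g ∈ TP := by
  have h := Submodule.mul_mem_mul hf hg
  rw [TP, Submodule.span_mul_span] at h
  refine Submodule.span_le.2 ?_ h
  rintro _ ⟨_, ⟨a, rfl⟩, _, ⟨b, rfl⟩, rfl⟩
  exact Submodule.subset_span ⟨a + b, (ee_mul a b).symm⟩

theorem tp_one : (1 : ℝ → ℂ) ∈ TP := Submodule.subset_span ⟨0, ee_zero⟩

theorem tp_pow {f : ℝ → ℂ} (hf : f ∈ TP) (n : ℕ) : f ^ n ∈ TP := by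
  induction n with
  | zero =>
    rw [pow_zero]
    exact tp_one
  | succ n ih =>
    rw [pow_succ]
    exact tp_mul ih hf

theorem ee_cont (γ : ℝ) : Continuous (ee γ) := by
  unfold ee
  fun_prop

theorem ee_norm (γ t : ℝ) : ‖ee γ t‖ = 1 := by
  have : ee γ t = cexp (((γ * t : ℝ) : ℂ) * I) := by
    unfold ee
    congr 1
    push_cast
    ring
  rw [this, Complex.norm_exp_ofReal_mul_I]

theorem ee_mean (γ : ℝ) : ∃ l : ℂ, Tendsto (fun T : ℝ => (1 / T : ℂ) * ∫ t in Ioc 0 T, ee γ t) atTop (𝓝 l) := by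
  by_cases hγ : γ = 0
  · subst hγ
    refine ⟨1, ?_⟩
    refine tendsto_const_nhds.congr' ?_
    filter_upwards [eventually_gt_atTop 0] with T hT
    have h1 : ∫ t in Ioc 0 T, ee 0 t = T := by
      rw [ee_zero]
      simp [hT.le]
    rw [h1]
    have : (T : ℂ) ≠ 0 := by exact_mod_cast hT.ne'
    field_simp
  · refine ⟨0, ?_⟩
    have hb : Tendsto (fun T : ℝ => (2 / |γ|) / T) atTop (𝓝 0) := tendsto_const_nhds.div_atTop tendsto_id
    refine squeeze_zero_norm' ?_ hb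
    filter_upwards [eventually_gt_atTop 0] with T hT
    have hc : (γ : ℂ) * I ≠ 0 := mul_ne_zero (by exact_mod_cast hγ) I_ne_zero
    have h1 : ∫ t in Ioc 0 T, ee γ t = (cexp ((γ * I) * (T : ℝ)) - cexp ((γ * I) * (0 : ℝ))) / (γ * I) := by
      rw [← intervalIntegral.integral_of_le hT.le, ← integral_exp_mul_complex hc]
      refine intervalIntegral.integral_congr fun t _ => ?_
      simp only [ee]
      congr 1
      ring
    have e1 : ∀ x : ℝ, ‖cexp ((γ * I) * (x : ℝ))‖ = 1 := by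
      intro x
      have : (γ : ℂ) * I * (x : ℝ) = ((γ * x : ℝ) : ℂ) * I := by
        push_cast
        ring
      rw [this, Complex.norm_exp_ofReal_mul_I]
    have h2 : ‖∫ t in Ioc 0 T, ee γ t‖ ≤ 2 / |γ| := by
      rw [h1, norm_div, norm_mul, norm_I, mul_one, norm_real, Real.norm_eq_abs]
      refine div_le_div_of_nonneg_right ?_ (abs_nonneg _)
      refine (norm_sub_le _ _).trans ?_
      rw [e1, e1]
      norm_num
    rw [norm_mul, norm_div, norm_one, norm_real, Real.norm_eq_abs, abs_of_pos hT, one_div, inv_mul_eq_div]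
    exact div_le_div_of_nonneg_right h2 hT.le

theorem tp_props {f : ℝ → ℂ} (hf : f ∈ TP) : Continuous f ∧ (∃ C : ℝ, ∀ t, ‖f t‖ ≤ C) ∧
    ∃ l : ℂ, Tendsto (fun T : ℝ => (1 / T : ℂ) * ∫ t in Ioc 0 T, f t) atTop (𝓝 l) := by
  unfold TP at hf
  induction hf using Submodule.span_induction with
  | mem x hx =>
    obtain ⟨γ, rfl⟩ := hx
    exact ⟨ee_cont γ, ⟨1, fun t => (ee_norm γ t).le⟩, ee_mean γ⟩
  | zero =>
    refine ⟨continuous_const, ⟨0, fun t => by simp⟩, ⟨0, ?_⟩⟩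
    simp
  | add x y _ _ hx hy =>
    obtain ⟨x1, ⟨C1, x2⟩, l1, x3⟩ := hx
    obtain ⟨y1, ⟨C2, y2⟩, l2, y3⟩ := hy
    refine ⟨x1.add y1, ⟨C1 + C2, fun t => (norm_add_le _ _).trans (add_le_add (x2 t) (y2 t))⟩, l1 + l2, ?_⟩
    refine (x3.add y3).congr fun T => ?_
    have : ∫ t in Ioc 0 T, (x + y) t = (∫ t in Ioc 0 T, x t) + ∫ t in Ioc 0 T, y t :=
      integral_add x1.integrableOn_Ioc y1.integrableOn_Ioc
    rw [this, mul_add]
  | smul a x _ hx =>
    obtain ⟨x1, ⟨C1, x2⟩, l1, x3⟩ := hx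
    refine ⟨continuous_const.smul x1, ⟨‖a‖ * C1, fun t => ?_⟩, a * l1, ?_⟩
    · rw [Pi.smul_apply, norm_smul]
      exact mul_le_mul_of_nonneg_left (x2 t) (norm_nonneg _)
    · refine (x3.const_mul a).congr fun T => ?_
      have : ∫ t in Ioc 0 T, (a • x) t = a * ∫ t in Ioc 0 T, x t := by
        simp only [Pi.smul_apply, smul_eq_mul]
        exact integral_const_mul _ _
      rw [this]
      ring

theorem tp_real {f : ℝ → ℝ} (hf : (fun t => (f t : ℂ)) ∈ TP) : ∃ l, Tendsto (mn f) atTop (𝓝 l) := by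
  obtain ⟨-, -, l, hl⟩ := tp_props hf
  refine ⟨l.re, ((continuous_re.tendsto l).comp hl).congr fun T => ?_⟩
  have h1 : ∫ t in Ioc 0 T, (f t : ℂ) = ((∫ t in Ioc 0 T, f t : ℝ) : ℂ) := integral_ofReal
  simp only [Function.comp_apply]
  rw [h1]
  have h2 : (1 / (T : ℂ)) * ((∫ t in Ioc 0 T, f t : ℝ) : ℂ) = ((mn f T : ℝ) : ℂ) := by
    unfold mn
    push_cast
    rfl
  rw [h2, ofReal_re]

theorem tp_poly {P : ℝ → ℝ} (hP : (fun t => (P t : ℂ)) ∈ TP) (p : Polynomial ℝ) : (fun t => ((p.eval (P t) : ℝ) : ℂ)) ∈ TP := by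
  induction p using Polynomial.induction_on' with
  | add p q hp hq =>
    have e : (fun t => (((p + q).eval (P t) : ℝ) : ℂ)) = (fun t => ((p.eval (P t) : ℝ) : ℂ)) + fun t => ((q.eval (P t) : ℝ) : ℂ) := by
      funext t
      simp
    rw [e]
    exact TP.add_mem hp hq
  | monomial n a =>
    have e : (fun t => (((Polynomial.monomial n a).eval (P t) : ℝ) : ℂ)) = (a : ℂ) • (fun t => (P t : ℂ)) ^ n := by
      funext t
      simp
    rw [e]
    exact TP.smul_mem _ (tp_pow hP n)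

/-- the mean of a continuous function of a real trigonometric polynomial -/
theorem tp_comp {P : ℝ → ℝ} (hP : (fun t => (P t : ℂ)) ∈ TP) {Φ : ℝ → ℝ} (hc : Continuous Φ) : ∃ l, Tendsto (mn fun t => Φ (P t)) atTop (𝓝 l) := by
  obtain ⟨h1, ⟨M, hM⟩, -⟩ := tp_props hP
  have hPc : Continuous P := by
    have := continuous_re.comp h1
    simpa [Function.comp_def] using this
  have hM' : ∀ t, P t ∈ Icc (-M) M := fun t => by
    have := hM t
    rw [norm_real, Real.norm_eq_abs, abs_le] at this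
    exact this
  refine mn_close fun η hη => ?_
  obtain ⟨p, hp⟩ := exists_polynomial_near_of_continuousOn (-M) M Φ hc.continuousOn η hη
  refine ⟨fun t => p.eval (P t), tp_real (tp_poly hP p), ?_⟩
  filter_upwards [eventually_gt_atTop 0] with T hT
  have i1 : IntegrableOn (fun t => Φ (P t)) (Ioc 0 T) := (hc.comp hPc).integrableOn_Ioc
  have i2 : IntegrableOn (fun t => p.eval (P t)) (Ioc 0 T) := (p.continuous.comp hPc).integrableOn_Ioc
  unfold mn
  rw [← mul_sub, ← integral_sub i1 i2, abs_mul, abs_of_pos (by positivity : 0 < 1 / T)]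
  have h2 : |∫ t in Ioc 0 T, (Φ (P t) - p.eval (P t))| ≤ η * T := by
    have h3 := norm_setIntegral_le_of_norm_le_const (μ := volume) (s := Ioc 0 T) (f := fun t => Φ (P t) - p.eval (P t)) (C := η)
      (by simp) fun t _ => by
        rw [Real.norm_eq_abs, abs_sub_comm]
        exact (hp (P t) (hM' t)).le
    rw [Real.norm_eq_abs] at h3
    simpa [hT.le] using h3
  rw [one_div, inv_mul_le_iff₀ hT]
  linarith

theorem modulus {Φ : ℝ → ℝ} (hc : Continuous Φ) {C : ℝ} (hC : 0 < C) (hb : ∀ x, |Φ x| ≤ C) {η B : ℝ} (hη : 0 < η) (hB : 0 < B) :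
    ∃ A b : ℝ, 0 < A ∧ 0 < b ∧ b * B ≤ η ∧ ∀ x y : ℝ, |Φ x - Φ y| ≤ η + A * (x - y) ^ 2 + b * x ^ 2 := by
  obtain ⟨R, hR, hRB⟩ : ∃ R : ℝ, 0 < R ∧ 2 * C / R ^ 2 * B ≤ η := by
    refine ⟨√(2 * C * B / η), by positivity, ?_⟩
    rw [Real.sq_sqrt (by positivity)]
    apply le_of_eq
    field_simp
  have hu : UniformContinuousOn Φ (Icc (-R - 1) (R + 1)) := isCompact_Icc.uniformContinuousOn_of_continuous hc.continuousOn
  obtain ⟨δ, hδ, hd⟩ := Metric.uniformContinuousOn_iff.1 hu η hη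
  obtain ⟨d, hd0, hd1, hdδ⟩ : ∃ d : ℝ, 0 < d ∧ d ≤ 1 ∧ d ≤ δ := ⟨min 1 δ, by positivity, min_le_left _ _, min_le_right _ _⟩
  refine ⟨2 * C / d ^ 2, 2 * C / R ^ 2, by positivity, by positivity, hRB, fun x y => ?_⟩
  have h2C : |Φ x - Φ y| ≤ 2 * C := by
    have := abs_sub (Φ x) (Φ y)
    linarith [hb x, hb y]
  have n1 : 0 ≤ 2 * C / d ^ 2 * (x - y) ^ 2 := by positivity
  have n2 : 0 ≤ 2 * C / R ^ 2 * x ^ 2 := by positivity
  by_cases hx : R < |x|
  · have h1 : 2 * C ≤ 2 * C / R ^ 2 * x ^ 2 := by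
      rw [div_mul_eq_mul_div, le_div_iff₀ (by positivity)]
      have h3 : R ^ 2 ≤ x ^ 2 := by
        rw [← sq_abs x]
        exact pow_le_pow_left₀ hR.le hx.le 2
      nlinarith
    linarith
  by_cases hxy : d ≤ |x - y|
  · have h1 : 2 * C ≤ 2 * C / d ^ 2 * (x - y) ^ 2 := by
      rw [div_mul_eq_mul_div, le_div_iff₀ (by positivity)]
      have h3 : d ^ 2 ≤ (x - y) ^ 2 := by
        rw [← sq_abs (x - y)]
        exact pow_le_pow_left₀ hd0.le hxy 2
      nlinarith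
    linarith
  push Not at hx hxy
  rw [abs_le] at hx
  have hxy' := abs_lt.1 hxy
  have h1 := hd x ⟨by linarith [hx.1], by linarith [hx.2]⟩ y ⟨by linarith [hx.1, hxy'.2], by linarith [hx.2, hxy'.1]⟩ (by
    rw [Real.dist_eq]
    exact hxy.trans_le hdδ)
  rw [Real.dist_eq] at h1
  linarith

/-- the real part of a trigonometric polynomial -/
theorem tp_re {n : ℕ} (c : Fin n → ℂ) (g : Fin n → ℝ) :
    (fun t : ℝ => (((∑ j, c j * cexp (g j * t * I)).re : ℝ) : ℂ)) ∈ TP := by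
  have e : (fun t : ℝ => (((∑ j, c j * cexp (g j * t * I)).re : ℝ) : ℂ)) =
      ∑ j, ((c j / 2) • ee (g j) + ((starRingEnd ℂ) (c j) / 2) • ee (-g j)) := by
    funext t
    rw [Finset.sum_apply, re_sum, ofReal_sum]
    refine Finset.sum_congr rfl fun j _ => ?_
    rw [Complex.re_eq_add_conj, map_mul, ← Complex.exp_conj]
    simp only [Pi.add_apply, Pi.smul_apply, smul_eq_mul, ee, map_mul, conj_ofReal, conj_I]
    have h1 : (g j : ℂ) * t * -I = ((-g j : ℝ) : ℂ) * t * I := by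
      push_cast
      ring
    rw [h1]
    ring
  rw [e]
  refine Submodule.sum_mem _ fun j _ => ?_
  exact TP.add_mem (TP.smul_mem _ (Submodule.subset_span ⟨_, rfl⟩)) (TP.smul_mem _ (Submodule.subset_span ⟨_, rfl⟩))

/-- **A function which is almost periodic in the mean square has a limiting distribution.** -/
theorem mean_exists {u : ℝ → ℝ} (hu : Measurable u) (hi : ∀ T, IntegrableOn (fun t => u t ^ 2) (Ioc 0 T))
    (happ : ∀ e : ℝ, 0 < e → ∃ (n : ℕ) (c : Fin n → ℂ) (g : Fin n → ℝ), ∀ᶠ T : ℝ in atTop,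
      (1 / T) * ∫ t in Ioc 0 T, ‖(u t : ℂ) - ∑ j, c j * cexp (g j * t * I)‖ ^ 2 ≤ e)
    (Φ : ℝ → ℝ) (hc : Continuous Φ) (C : ℝ) (hb : ∀ x, |Φ x| ≤ C) :
    ∃ l, Tendsto (fun T : ℝ => (1 / T) * ∫ t in Ioc 0 T, Φ (u t)) atTop (𝓝 l) := by
  -- real form of the approximation
  have happ' : ∀ e : ℝ, 0 < e → ∃ P : ℝ → ℝ, (fun t => (P t : ℂ)) ∈ TP ∧ Continuous P ∧ (∃ M, 0 < M ∧ ∀ t, |P t| ≤ M) ∧
      (∀ T, IntegrableOn (fun t => (u t - P t) ^ 2) (Ioc 0 T)) ∧ ∀ᶠ T : ℝ in atTop, mn (fun t => (u t - P t) ^ 2) T ≤ e := by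
    intro e he
    obtain ⟨n, c, g, h⟩ := happ e he
    set Q : ℝ → ℂ := fun t => ∑ j, c j * cexp (g j * t * I) with hQ
    have hQc : Continuous Q := by
      rw [hQ]
      fun_prop
    have hP := tp_re c g
    have hQb : ∀ t, ‖Q t‖ ≤ ∑ j, ‖c j‖ := by
      intro t
      refine (norm_sum_le _ _).trans (Finset.sum_le_sum fun j _ => ?_)
      have := ee_norm (g j) t
      unfold ee at this
      rw [norm_mul, this, mul_one]
    have hPc : Continuous fun t => (Q t).re := continuous_re.comp hQc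
    have hm : ∀ {f : ℝ → ℝ} (S : ℝ), Measurable f → (∀ t, |f t| ≤ 2 * u t ^ 2 + 2 * S ^ 2) → ∀ T, IntegrableOn f (Ioc 0 T) := by
      intro f S hf hfb T
      have i1 : IntegrableOn (fun t => 2 * u t ^ 2 + 2 * S ^ 2) (Ioc 0 T) := by
        refine ((hi T).const_mul 2).add ?_
        exact continuous_const.integrableOn_Ioc
      refine Integrable.mono' i1 hf.aestronglyMeasurable (Eventually.of_forall fun t => ?_)
      rw [Real.norm_eq_abs]
      exact hfb t
    have iP : ∀ T, IntegrableOn (fun t => (u t - (Q t).re) ^ 2) (Ioc 0 T) := by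
      refine hm (∑ j, ‖c j‖) ((hu.sub hPc.measurable).pow_const 2) fun t => ?_
      rw [abs_of_nonneg (sq_nonneg _)]
      have h1 : |(Q t).re| ≤ ∑ j, ‖c j‖ := (abs_re_le_norm _).trans (hQb t)
      have h2 : (Q t).re ^ 2 ≤ (∑ j, ‖c j‖) ^ 2 := by
        rw [← sq_abs]
        exact pow_le_pow_left₀ (abs_nonneg _) h1 2
      nlinarith [sq_nonneg (u t + (Q t).re)]
    have iQ : ∀ T, IntegrableOn (fun t => ‖(u t : ℂ) - Q t‖ ^ 2) (Ioc 0 T) := by
      refine hm (∑ j, ‖c j‖) ?_ fun t => ?_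
      · exact (((measurable_ofReal.comp hu).sub hQc.measurable).norm).pow_const 2
      · rw [abs_of_nonneg (sq_nonneg _)]
        have h1 := norm_sub_le (u t : ℂ) (Q t)
        rw [norm_real, Real.norm_eq_abs] at h1
        have h2 := hQb t
        have h3 : ‖(u t : ℂ) - Q t‖ ^ 2 ≤ (|u t| + ∑ j, ‖c j‖) ^ 2 := pow_le_pow_left₀ (norm_nonneg _) (by linarith) 2
        nlinarith [sq_nonneg (|u t| - ∑ j, ‖c j‖), sq_abs (u t)]
    refine ⟨fun t => (Q t).re, hP, hPc, ⟨∑ j, ‖c j‖ + 1, by positivity, fun t => ?_⟩, iP, ?_⟩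
    · exact (abs_re_le_norm _).trans ((hQb t).trans (by linarith))
    · filter_upwards [h, eventually_gt_atTop 0] with T hT hT0
      refine le_trans ?_ hT
      unfold mn
      refine mul_le_mul_of_nonneg_left ?_ (by positivity)
      refine integral_mono (iP T) (iQ T) fun t => ?_
      simp only
      have h1 : |((u t : ℂ) - Q t).re| ≤ ‖(u t : ℂ) - Q t‖ := abs_re_le_norm _
      rw [sub_re, ofReal_re] at h1
      rw [← sq_abs]
      exact pow_le_pow_left₀ (abs_nonneg _) h1 2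
  -- the second moment
  obtain ⟨B, hB, hsm⟩ : ∃ B : ℝ, 0 < B ∧ ∀ᶠ T : ℝ in atTop, mn (fun t => u t ^ 2) T ≤ B := by
    obtain ⟨P, -, hPc, ⟨M, hM, hPM⟩, iP, h⟩ := happ' 1 one_pos
    refine ⟨2 + 2 * M ^ 2, by positivity, ?_⟩
    filter_upwards [h, eventually_gt_atTop 0] with T hT hT0
    have h1 : ∫ t in Ioc 0 T, u t ^ 2 ≤ ∫ t in Ioc 0 T, (2 * (u t - P t) ^ 2 + 2 * M ^ 2) := by
      refine integral_mono (hi T) (((iP T).const_mul 2).add continuous_const.integrableOn_Ioc) fun t => ?_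
      simp only
      have h2 : P t ^ 2 ≤ M ^ 2 := by
        rw [← sq_abs]
        exact pow_le_pow_left₀ (abs_nonneg _) (hPM t) 2
      nlinarith [sq_nonneg (u t - 2 * P t)]
    have h2 : ∫ t in Ioc 0 T, (2 * (u t - P t) ^ 2 + 2 * M ^ 2) = 2 * (∫ t in Ioc 0 T, (u t - P t) ^ 2) + 2 * M ^ 2 * T := by
      rw [integral_add ((iP T).const_mul 2) continuous_const.integrableOn_Ioc, integral_const_mul]
      congr 1
      simp [hT0.le]
      ring
    unfold mn at hT ⊢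
    rw [h2] at h1
    rw [one_div, inv_mul_le_iff₀ hT0] at hT ⊢
    linarith
  have hC' : ∀ x, |Φ x| ≤ |C| + 1 := fun x => (hb x).trans ((le_abs_self C).trans (by linarith))
  have iΦ : ∀ {w : ℝ → ℝ}, Measurable w → ∀ T, IntegrableOn (fun t => Φ (w t)) (Ioc 0 T) := by
    intro w hw T
    refine Integrable.mono' (g := fun _ => |C| + 1) continuous_const.integrableOn_Ioc (hc.measurable.comp hw).aestronglyMeasurable
      (Eventually.of_forall fun t => ?_)
    rw [Real.norm_eq_abs]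
    exact hC' _
  refine mn_close (f := fun t => Φ (u t)) fun η hη => ?_
  obtain ⟨A, b, hA, hb0, hbB, hmod⟩ := modulus hc (by positivity : 0 < |C| + 1) hC' (by positivity : 0 < η / 3) hB
  obtain ⟨P, hP, hPc, -, iP, h⟩ := happ' (η / 3 / A) (by positivity)
  refine ⟨fun t => Φ (P t), tp_comp hP hc, ?_⟩
  filter_upwards [h, hsm, eventually_gt_atTop 0] with T hT hT2 hT0
  have i1 := iΦ hu T
  have i2 := iΦ hPc.measurable T
  have i5 : IntegrableOn (fun _ : ℝ => η / 3) (Ioc 0 T) := continuous_const.integrableOn_Ioc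
  have i4 : IntegrableOn (fun t => η / 3 + A * (u t - P t) ^ 2) (Ioc 0 T) := i5.add ((iP T).const_mul A)
  have i3 : IntegrableOn (fun t => η / 3 + A * (u t - P t) ^ 2 + b * u t ^ 2) (Ioc 0 T) := i4.add ((hi T).const_mul b)
  unfold mn
  rw [← mul_sub, ← integral_sub i1 i2, abs_mul, abs_of_pos (by positivity : 0 < 1 / T)]
  have h1 : |∫ t in Ioc 0 T, (Φ (u t) - Φ (P t))| ≤ ∫ t in Ioc 0 T, (η / 3 + A * (u t - P t) ^ 2 + b * u t ^ 2) := by
    refine (abs_integral_le_integral_abs).trans ?_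
    exact integral_mono (i1.sub i2).abs i3 fun t => hmod _ _
  have h2 : ∫ t in Ioc 0 T, (η / 3 + A * (u t - P t) ^ 2 + b * u t ^ 2) =
      η / 3 * T + A * (∫ t in Ioc 0 T, (u t - P t) ^ 2) + b * ∫ t in Ioc 0 T, u t ^ 2 := by
    rw [integral_add i4 ((hi T).const_mul b), integral_add i5 ((iP T).const_mul A), integral_const_mul, integral_const_mul]
    congr 2
    simp [hT0.le]
    ring
  unfold mn at hT hT2
  rw [one_div, inv_mul_le_iff₀ hT0] at hT hT2 ⊢
  have h3 : A * (∫ t in Ioc 0 T, (u t - P t) ^ 2) ≤ A * (T * (η / 3 / A)) := mul_le_mul_of_nonneg_left hT hA.le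
  have h4 : A * (T * (η / 3 / A)) = T * (η / 3) := by field_simp
  have h5 : b * (∫ t in Ioc 0 T, u t ^ 2) ≤ b * (T * B) := mul_le_mul_of_nonneg_left hT2 hb0.le
  have h6 : b * (T * B) ≤ T * (η / 3) := by nlinarith
  linarith

end Pool.Agent.Helper85.CR
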