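import Pool.Agent.Helper29.MS.Base

/-!
# CR, exact mean square: K2, small windows around a zero
-/

set_option autoImplicit false

namespace Pool.Agent.Helper16.CR

open Complex Filter Topology MeasureTheory Set Metric
open Pool.Agent.Helper13.Bsd Pool.Agent.Helper7.GW Pool.Agent.Helper58.BSD Pool.Agent.Helper29.MS

variable {v : ℝ → ℝ} {G : ℂ → ℂ} {A a η B c : ℝ} {k : ℕ}

/-- the logarithmic derivative near a zero -/
theorem k2_deriv {L : ℂ → ℂ} (hL : Branch v G a L) {z0 : ℂ} {m : ℕ} {g : ℂ → ℂ} {w : ℂ} (hw : 0 < w.re) (hz : z0.re = 0)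
    (hg : DifferentiableAt ℂ g w) (hg0 : g w ≠ 0) (hG : ∀ᶠ z in 𝓝 w, G z = (z - z0) ^ m * g z) :
    deriv L w = m / (w - z0) + deriv g w / g w := by
  have hu : w - z0 ≠ 0 := by
    intro h
    have := congrArg Complex.re h
    rw [sub_re, hz, sub_zero, zero_re] at this
    linarith
  have hopen : IsOpen {w : ℂ | 0 < w.re} := isOpen_lt continuous_const continuous_re
  have hd : DifferentiableAt ℂ L w := hL.diff.differentiableAt (hopen.mem_nhds hw)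
  have h1 : HasDerivAt (fun z => cexp (L z)) (cexp (L w) * deriv L w) w := hd.hasDerivAt.cexp
  have h2 : (fun z => cexp (L z)) =ᶠ[𝓝 w] fun z => (z - z0) ^ m * g z := by
    filter_upwards [hopen.mem_nhds hw, hG] with z hz1 hz2
    rw [hL.exp z hz1, hz2]
  have h3 : HasDerivAt (fun z => (z - z0) ^ m * g z) (m * (w - z0) ^ (m - 1) * 1 * g w + (w - z0) ^ m * deriv g w) w :=
    (((hasDerivAt_id w).sub_const z0).pow m).mul hg.hasDerivAt
  have h4 := h1.unique (h3.congr_of_eventuallyEq h2)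
  have h5 : cexp (L w) = (w - z0) ^ m * g w := h2.eq_of_nhds
  rw [h5] at h4
  have h6 : (m : ℂ) * (w - z0) ^ (m - 1) * (w - z0) = m * (w - z0) ^ m := by
    rcases Nat.eq_zero_or_pos m with rfl | hm
    · simp
    · rw [mul_assoc, ← pow_succ, Nat.sub_add_cancel hm]
  have hum := pow_ne_zero m hu
  rw [div_add_div _ _ hu hg0, eq_div_iff (mul_ne_zero hu hg0)]
  apply mul_left_cancel₀ hum
  linear_combination (w - z0) * h4 + g w * h6

theorem k2_abs (x y : ℂ) : |‖x + y‖ ^ 2 - ‖x‖ ^ 2| ≤ 2 * ‖x‖ * ‖y‖ + ‖y‖ ^ 2 := by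
  have h1 := norm_add_le x y
  have h2 : ‖x‖ - ‖y‖ ≤ ‖x + y‖ := by
    have := norm_sub_norm_le x (-y)
    rw [norm_neg, sub_neg_eq_add] at this
    exact this
  have h3 := norm_nonneg (x + y)
  have h4 := norm_nonneg x
  have h5 := norm_nonneg y
  rw [abs_le]
  constructor
  · rcases le_total ‖y‖ ‖x‖ with h | h
    · nlinarith
    · nlinarith
  · nlinarith

theorem k2_window {L : ℂ → ℂ} (hL : Branch v G a L) (γ : ℝ) (hγ : γ ≠ 0) (m : ℕ)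
    (g : ℂ → ℂ) (hg : AnalyticAt ℂ g (γ * I)) (hg0 : g (γ * I) ≠ 0)
    (hG : ∀ᶠ w in 𝓝 (γ * I : ℂ), G w = (w - γ * I) ^ m * g w)
    (hP : ∀ ε : ℝ, 0 < ε → ε < |γ| → Tendsto (fun σ : ℝ => σ * ∫ τ in Icc (γ - ε) (γ + ε),
      (‖(σ : ℂ) + (τ : ℂ) * I - (γ : ℂ) * I‖ ^ 2)⁻¹ * (‖(σ : ℂ) + (τ : ℂ) * I‖ ^ 2)⁻¹) (𝓝[>] 0) (𝓝 (Real.pi / γ ^ 2))) :
    ∃ ε0 : ℝ, 0 < ε0 ∧ ∀ ε : ℝ, 0 < ε → ε ≤ ε0 →
      Tendsto (fun σ : ℝ => σ * ∫ τ in Icc (γ - ε) (γ + ε),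
        ‖deriv L ((σ : ℂ) + (τ : ℂ) * I)‖ ^ 2 * (‖(σ : ℂ) + (τ : ℂ) * I‖ ^ 2)⁻¹) (𝓝[>] 0)
        (𝓝 ((m : ℝ) ^ 2 * (Real.pi / γ ^ 2))) := by
  have hγ0 : 0 < |γ| := abs_pos.2 hγ
  -- the ball
  have e1 : ∀ᶠ w in 𝓝 (γ * I : ℂ), ‖deriv g w / g w‖ ≤ ‖deriv g (γ * I) / g (γ * I)‖ + 1 := by
    have hc : ContinuousAt (fun w => ‖deriv g w / g w‖) (γ * I : ℂ) := (hg.deriv.div hg hg0).continuousAt.norm
    exact (hc.eventually_lt continuousAt_const (by linarith)).mono fun w hw => hw.le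
  have e2 : ∀ᶠ w in 𝓝 (γ * I : ℂ), g w ≠ 0 := hg.continuousAt.eventually_ne hg0
  have e3 : ∀ᶠ w in 𝓝 (γ * I : ℂ), DifferentiableAt ℂ g w := hg.eventually_analyticAt.mono fun w hw => hw.differentiableAt
  have e4 : ∀ᶠ w in 𝓝 (γ * I : ℂ), ∀ᶠ z in 𝓝 w, G z = (z - γ * I) ^ m * g z := hG.eventually_nhds
  obtain ⟨ρ, hρ, hball⟩ := Metric.eventually_nhds_iff.1 (e1.and (e2.and (e3.and e4)))
  set C : ℝ := ‖deriv g (γ * I) / g (γ * I)‖ + 1 with hCdef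
  have hC0 : 0 ≤ C := by positivity
  have hz0 : ((γ : ℂ) * I).re = 0 := by simp
  refine ⟨min (ρ / 2) (|γ| / 2), by positivity, fun ε hε hε0 => ?_⟩
  have hε1 : ε ≤ ρ / 2 := hε0.trans (min_le_left _ _)
  have hε2 : ε ≤ |γ| / 2 := hε0.trans (min_le_right _ _)
  set F : ℝ → ℝ → ℝ := fun σ τ => ‖deriv L ((σ : ℂ) + (τ : ℂ) * I)‖ ^ 2 * (‖(σ : ℂ) + (τ : ℂ) * I‖ ^ 2)⁻¹ with hF
  set Q : ℝ → ℝ → ℝ := fun σ τ => (‖(σ : ℂ) + (τ : ℂ) * I - (γ : ℂ) * I‖ ^ 2)⁻¹ * (‖(σ : ℂ) + (τ : ℂ) * I‖ ^ 2)⁻¹ with hQ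
  have hre : ∀ σ τ : ℝ, ((σ : ℂ) + (τ : ℂ) * I).re = σ := fun σ τ => by simp
  have hopen : IsOpen {w : ℂ | 0 < w.re} := isOpen_lt continuous_const continuous_re
  have hmap : ∀ σ : ℝ, Continuous fun τ : ℝ => (σ : ℂ) + (τ : ℂ) * I := fun σ => by fun_prop
  have hne : ∀ σ τ : ℝ, 0 < σ → (σ : ℂ) + (τ : ℂ) * I ≠ 0 := fun σ τ h h0 => by
    have := congrArg Complex.re h0
    rw [hre, zero_re] at this
    linarith
  have hne' : ∀ σ τ : ℝ, 0 < σ → (σ : ℂ) + (τ : ℂ) * I - (γ : ℂ) * I ≠ 0 := fun σ τ h h0 => by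
    have := congrArg Complex.re h0
    rw [sub_re, hre, hz0, zero_re] at this
    linarith
  have hdc : ContinuousOn (deriv L) {w : ℂ | 0 < w.re} := (hL.diff.deriv hopen).continuousOn
  have hFc : ∀ σ : ℝ, 0 < σ → Continuous (F σ) := fun σ h => by
    have h1 : Continuous fun τ : ℝ => deriv L ((σ : ℂ) + (τ : ℂ) * I) :=
      hdc.comp_continuous (hmap σ) fun τ => by
        change 0 < ((σ : ℂ) + (τ : ℂ) * I).re
        rw [hre]
        exact h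
    exact (h1.norm.pow 2).mul ((((hmap σ).norm).pow 2).inv₀ fun τ => pow_ne_zero 2 (norm_ne_zero_iff.2 (hne σ τ h)))
  have hQc : ∀ σ : ℝ, 0 < σ → Continuous (Q σ) := fun σ h => by
    exact (((((hmap σ).sub continuous_const).norm).pow 2).inv₀ fun τ => pow_ne_zero 2 (norm_ne_zero_iff.2 (hne' σ τ h))).mul
      ((((hmap σ).norm).pow 2).inv₀ fun τ => pow_ne_zero 2 (norm_ne_zero_iff.2 (hne σ τ h)))
  -- the estimate
  have hest : ∀ σ τ : ℝ, 0 < σ → σ < ρ / 2 → |τ - γ| ≤ ε →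
      |F σ τ - (m : ℝ) ^ 2 * Q σ τ| ≤ (2 * m * C / ‖(σ : ℂ) + (τ : ℂ) * I - (γ : ℂ) * I‖ + C ^ 2) * (4 / γ ^ 2) := by
    intro σ τ hσ hσρ hτ
    have hw : dist ((σ : ℂ) + (τ : ℂ) * I) ((γ : ℂ) * I) < ρ := by
      rw [dist_eq_norm]
      have h1 : (σ : ℂ) + (τ : ℂ) * I - (γ : ℂ) * I = (σ : ℂ) + ((τ - γ : ℝ) : ℂ) * I := by
        push_cast
        ring
      rw [h1]
      refine (norm_add_le _ _).trans_lt ?_
      rw [norm_mul, norm_I, mul_one, norm_real, norm_real, Real.norm_eq_abs, Real.norm_eq_abs, abs_of_pos hσ]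
      linarith
    obtain ⟨b1, b2, b3, b4⟩ := hball hw
    have hd := k2_deriv hL (w := (σ : ℂ) + (τ : ℂ) * I) (by rw [hre]; exact hσ) hz0 b3 b2 b4
    set w : ℂ := (σ : ℂ) + (τ : ℂ) * I with hwdef
    set u : ℂ := w - (γ : ℂ) * I with hudef
    have hu : 0 < ‖u‖ := norm_pos_iff.2 (hne' σ τ hσ)
    have hwn : |γ| / 2 ≤ ‖w‖ := by
      have h1 : |w.im| ≤ ‖w‖ := abs_im_le_norm w
      have h2 : w.im = τ := by simp [hwdef]
      rw [h2] at h1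
      have h3 : |γ| ≤ |τ| + |τ - γ| := by
        have := abs_sub_abs_le_abs_sub γ τ
        rw [abs_sub_comm] at this
        linarith
      linarith
    have hw2 : (‖w‖ ^ 2)⁻¹ ≤ 4 / γ ^ 2 := by
      have h1 : γ ^ 2 / 4 ≤ ‖w‖ ^ 2 := by
        have h2 := pow_le_pow_left₀ (by positivity) hwn 2
        rw [div_pow, sq_abs] at h2
        norm_num at h2
        exact h2
      have h2 : 0 < γ ^ 2 / 4 := by positivity
      have h3 := inv_anti₀ h2 h1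
      rwa [inv_div] at h3
    have e : F σ τ - (m : ℝ) ^ 2 * Q σ τ = (‖(m : ℂ) / u + deriv g w / g w‖ ^ 2 - ‖(m : ℂ) / u‖ ^ 2) * (‖w‖ ^ 2)⁻¹ := by
      simp only [hF, hQ]
      rw [← hwdef, ← hudef, hd, norm_div, Complex.norm_natCast, div_pow]
      ring
    rw [e, abs_mul, abs_of_nonneg (by positivity : 0 ≤ (‖w‖ ^ 2)⁻¹)]
    refine mul_le_mul ?_ hw2 (by positivity) (by positivity)
    refine (k2_abs _ _).trans ?_
    have h1 : ‖(m : ℂ) / u‖ = m / ‖u‖ := by rw [norm_div, Complex.norm_natCast]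
    rw [h1]
    have h2 : ‖deriv g w / g w‖ ^ 2 ≤ C ^ 2 := pow_le_pow_left₀ (norm_nonneg _) b1 2
    have h3 : 2 * (m / ‖u‖) * ‖deriv g w / g w‖ ≤ 2 * (m / ‖u‖) * C := mul_le_mul_of_nonneg_left b1 (by positivity)
    have h4 : 2 * (m / ‖u‖) * C = 2 * m * C / ‖u‖ := by ring
    linarith
  -- the difference tends to zero
  have hlim : Tendsto (fun σ : ℝ => ∫ τ in Icc (γ - ε) (γ + ε), σ * (F σ τ - (m : ℝ) ^ 2 * Q σ τ)) (𝓝[>] 0) (𝓝 (∫ _τ in Icc (γ - ε) (γ + ε), (0 : ℝ))) := by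
    have hpos : ∀ᶠ σ : ℝ in 𝓝[>] 0, 0 < σ := eventually_mem_nhdsWithin
    have hsm : ∀ᶠ σ : ℝ in 𝓝[>] 0, σ < min 1 (ρ / 2) := by
      apply mem_nhdsWithin_of_mem_nhds
      exact Iio_mem_nhds (by positivity)
    refine tendsto_integral_filter_of_dominated_convergence (fun _ => (2 * m * C + C ^ 2) * (4 / γ ^ 2)) ?_ ?_ ?_ ?_
    · filter_upwards [hpos] with σ hσ
      exact (continuous_const.mul ((hFc σ hσ).sub (continuous_const.mul (hQc σ hσ)))).aestronglyMeasurable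
    · filter_upwards [hpos, hsm] with σ hσ hσ1
      rw [lt_min_iff] at hσ1
      refine (ae_restrict_iff' measurableSet_Icc).2 (Eventually.of_forall fun τ hτ => ?_)
      have hτ' : |τ - γ| ≤ ε := by
        rw [abs_le]
        constructor <;> linarith [hτ.1, hτ.2]
      have h1 := hest σ τ hσ hσ1.2 hτ'
      rw [Real.norm_eq_abs, abs_mul, abs_of_pos hσ]
      have hu : 0 < ‖(σ : ℂ) + (τ : ℂ) * I - (γ : ℂ) * I‖ := norm_pos_iff.2 (hne' σ τ hσ)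
      have hσu : σ ≤ ‖(σ : ℂ) + (τ : ℂ) * I - (γ : ℂ) * I‖ := by
        have := abs_re_le_norm ((σ : ℂ) + (τ : ℂ) * I - (γ : ℂ) * I)
        rw [sub_re, hre, hz0, sub_zero, abs_of_pos hσ] at this
        exact this
      have h2 : σ * (2 * m * C / ‖(σ : ℂ) + (τ : ℂ) * I - (γ : ℂ) * I‖ + C ^ 2) ≤ 2 * m * C + C ^ 2 := by
        have h3 : σ * (2 * m * C / ‖(σ : ℂ) + (τ : ℂ) * I - (γ : ℂ) * I‖) ≤ 2 * m * C := by
          rw [mul_div_assoc', div_le_iff₀ hu]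
          have : 0 ≤ 2 * m * C := by positivity
          nlinarith
        have h4 : σ * C ^ 2 ≤ C ^ 2 := by
          have : 0 ≤ C ^ 2 := sq_nonneg C
          nlinarith [hσ1.1]
        linarith
      calc σ * |F σ τ - (m : ℝ) ^ 2 * Q σ τ|
          ≤ σ * ((2 * m * C / ‖(σ : ℂ) + (τ : ℂ) * I - (γ : ℂ) * I‖ + C ^ 2) * (4 / γ ^ 2)) := mul_le_mul_of_nonneg_left h1 hσ.le
        _ = (σ * (2 * m * C / ‖(σ : ℂ) + (τ : ℂ) * I - (γ : ℂ) * I‖ + C ^ 2)) * (4 / γ ^ 2) := by ring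
        _ ≤ _ := mul_le_mul_of_nonneg_right h2 (by positivity)
    · exact (continuous_const.integrableOn_Icc)
    · refine (ae_restrict_iff' measurableSet_Icc).2 ?_
      have hae : ∀ᵐ τ : ℝ, τ ≠ γ := by
        simp [ae_iff, measure_singleton]
      filter_upwards [hae] with τ hτγ hτ
      have hτ' : |τ - γ| ≤ ε := by
        rw [abs_le]
        constructor <;> linarith [hτ.1, hτ.2]
      have hd0 : 0 < |τ - γ| := abs_pos.2 (sub_ne_zero.2 hτγ)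
      have hb : Tendsto (fun σ : ℝ => σ * ((2 * m * C / |τ - γ| + C ^ 2) * (4 / γ ^ 2))) (𝓝[>] 0) (𝓝 0) := by
        have h1 : Tendsto (fun σ : ℝ => σ * ((2 * m * C / |τ - γ| + C ^ 2) * (4 / γ ^ 2))) (𝓝 0) (𝓝 (0 * ((2 * m * C / |τ - γ| + C ^ 2) * (4 / γ ^ 2)))) :=
          tendsto_id.mul_const _
        rw [zero_mul] at h1
        exact h1.mono_left nhdsWithin_le_nhds
      refine squeeze_zero_norm' ?_ hb
      filter_upwards [hpos, hsm] with σ hσ hσ1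
      rw [lt_min_iff] at hσ1
      have h1 := hest σ τ hσ hσ1.2 hτ'
      rw [Real.norm_eq_abs, abs_mul, abs_of_pos hσ]
      refine mul_le_mul_of_nonneg_left (h1.trans ?_) hσ.le
      have hu : |τ - γ| ≤ ‖(σ : ℂ) + (τ : ℂ) * I - (γ : ℂ) * I‖ := by
        have := abs_im_le_norm ((σ : ℂ) + (τ : ℂ) * I - (γ : ℂ) * I)
        have h2 : ((σ : ℂ) + (τ : ℂ) * I - (γ : ℂ) * I).im = τ - γ := by simp
        rwa [h2] at this
      refine mul_le_mul_of_nonneg_right ?_ (by positivity)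
      have h3 : 2 * m * C / ‖(σ : ℂ) + (τ : ℂ) * I - (γ : ℂ) * I‖ ≤ 2 * m * C / |τ - γ| :=
        div_le_div_of_nonneg_left (by positivity) hd0 hu
      linarith
  have hmain := ((hP ε hε (by linarith)).const_mul ((m : ℝ) ^ 2)).add hlim
  rw [integral_zero, add_zero] at hmain
  refine hmain.congr' ?_
  filter_upwards [eventually_mem_nhdsWithin] with σ hσ
  have hσ' : 0 < σ := hσ
  have i1 : IntegrableOn (F σ) (Icc (γ - ε) (γ + ε)) := (hFc σ hσ').integrableOn_Icc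
  have i2 : IntegrableOn (Q σ) (Icc (γ - ε) (γ + ε)) := (hQc σ hσ').integrableOn_Icc
  have h1 : ∫ τ in Icc (γ - ε) (γ + ε), σ * (F σ τ - (m : ℝ) ^ 2 * Q σ τ) =
      σ * (∫ τ in Icc (γ - ε) (γ + ε), F σ τ) - σ * ((m : ℝ) ^ 2 * ∫ τ in Icc (γ - ε) (γ + ε), Q σ τ) := by
    rw [integral_const_mul, integral_sub i1 (i2.const_mul _), integral_const_mul, mul_sub]
  rw [h1]
  ring

end Pool.Agent.Helper16.CR
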