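import Mathlib

/-!
# CR, exact mean square: K5, the abstract assembly (windows, compact middle parts, tail)
-/

set_option autoImplicit false

namespace Pool.Agent.Helper85.CR

open Filter Topology MeasureTheory Set Metric Classical

theorem k5_union {f : ℝ → ℝ} (hf : Integrable f) (h0 : ∀ x, 0 ≤ f x) {A B : Set ℝ} (hA : MeasurableSet A) (hB : MeasurableSet B) :
    ∫ x in A ∪ B, f x ≤ (∫ x in A, f x) + ∫ x in B, f x := by
  have h : A ∪ B = A ∪ (B \ A) := union_sdiff_self.symm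
  rw [h, setIntegral_union disjoint_sdiff_right (hB.diff hA) hf.integrableOn hf.integrableOn]
  have := setIntegral_mono_set (hf.integrableOn : IntegrableOn f B) (Eventually.of_forall h0) (sdiff_subset.eventuallyLE : (B \ A : Set ℝ) ≤ᵐ[volume] B)
  linarith

/-- the window of width `ε` around the points of `T` -/
def Win (T : Finset ℝ) (ε : ℝ) : Set ℝ := ⋃ γ ∈ T, Icc (γ - ε) (γ + ε)

theorem win_meas (T : Finset ℝ) (ε : ℝ) : MeasurableSet (Win T ε) :=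
  T.measurableSet_biUnion fun _ _ => measurableSet_Icc

variable {D : ℝ → ℝ → ℝ} {Z : Set ℝ} {f : ℝ → ℝ}

theorem k5_win (hI : ∀ σ, 0 < σ → σ ≤ 1 → Integrable (D σ))
    (hwin : ∀ γ ∈ Z, ∃ ε0 : ℝ, 0 < ε0 ∧ ∀ ε : ℝ, 0 < ε → ε ≤ ε0 →
      Tendsto (fun σ : ℝ => σ * ∫ τ in Icc (γ - ε) (γ + ε), D σ τ) (𝓝[>] 0) (𝓝 (f γ))) (T : Finset ℝ) (hT : ∀ γ ∈ T, γ ∈ Z) :
    ∃ ε0 : ℝ, 0 < ε0 ∧ ∀ ε : ℝ, 0 < ε → ε ≤ ε0 →
      Tendsto (fun σ : ℝ => σ * ∫ τ in Win T ε, D σ τ) (𝓝[>] 0) (𝓝 (∑ γ ∈ T, f γ)) := by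
  induction T using Finset.induction_on with
  | empty =>
    refine ⟨1, one_pos, fun ε _ _ => ?_⟩
    simp [Win]
  | insert a T ha ih =>
    obtain ⟨ε1, h1, k1⟩ := ih fun γ hγ => hT γ (Finset.mem_insert_of_mem hγ)
    obtain ⟨ε2, h2, k2⟩ := hwin a (hT a (Finset.mem_insert_self _ _))
    obtain ⟨r, hr, hball⟩ := Metric.isOpen_iff.1 (T.finite_toSet.isClosed.isOpen_compl) a (by simpa using ha)
    refine ⟨min ε1 (min ε2 (r / 3)), by positivity, fun ε hε hε0 => ?_⟩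
    have e1 : ε ≤ ε1 := hε0.trans (min_le_left _ _)
    have e2 : ε ≤ ε2 := hε0.trans ((min_le_right _ _).trans (min_le_left _ _))
    have e3 : ε ≤ r / 3 := hε0.trans ((min_le_right _ _).trans (min_le_right _ _))
    rw [Finset.sum_insert ha]
    refine ((k2 ε hε e2).add (k1 ε hε e1)).congr' ?_
    have hev : ∀ᶠ σ : ℝ in 𝓝[>] 0, 0 < σ ∧ σ ≤ 1 := Ioc_mem_nhdsGT one_pos
    filter_upwards [hev] with σ hσ
    have hw : Win (insert a T) ε = Icc (a - ε) (a + ε) ∪ Win T ε := by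
      unfold Win
      rw [Finset.set_biUnion_insert]
    have hdis : Disjoint (Icc (a - ε) (a + ε)) (Win T ε) := by
      rw [Set.disjoint_left]
      intro x hx hx2
      unfold Win at hx2
      simp only [mem_iUnion] at hx2
      obtain ⟨γ, hγ, hx2⟩ := hx2
      have h3 : γ ∈ ball a r := by
        rw [Metric.mem_ball, Real.dist_eq, abs_lt]
        constructor <;> linarith [hx.1, hx.2, hx2.1, hx2.2]
      exact hball h3 hγ
    have hi := hI σ hσ.1 hσ.2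
    rw [hw, setIntegral_union hdis (win_meas T ε) hi.integrableOn hi.integrableOn, mul_add]

/-- **The assembly.** -/
theorem k5_abs (h0 : ∀ σ τ, 0 ≤ D σ τ) (hf : ∀ γ, 0 ≤ f γ) (K : ℝ)
    (hI : ∀ σ, 0 < σ → σ ≤ 1 → Integrable (D σ) ∧ ∫ τ, D σ τ ≤ K / σ)
    (hwin : ∀ γ ∈ Z, ∃ ε0 : ℝ, 0 < ε0 ∧ ∀ ε : ℝ, 0 < ε → ε ≤ ε0 →
      Tendsto (fun σ : ℝ => σ * ∫ τ in Icc (γ - ε) (γ + ε), D σ τ) (𝓝[>] 0) (𝓝 (f γ)))
    (htail : ∀ e : ℝ, 0 < e → ∃ R : ℝ, 0 < R ∧ ∀ σ : ℝ, 0 < σ → σ ≤ 1 → ∫ τ in {τ : ℝ | R < |τ|}, D σ τ ≤ e / σ)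
    (hmid : ∀ S : Set ℝ, IsCompact S → (∀ y ∈ S, y ∉ Z) → ∃ σ0 C : ℝ, 0 < σ0 ∧ 0 ≤ C ∧ ∀ σ : ℝ, 0 < σ → σ ≤ σ0 → ∀ y ∈ S, D σ y ≤ C)
    (hfin : ∀ R : ℝ, {μ : ℝ | μ ∈ Icc (-R) R ∧ μ ∈ Z}.Finite) (hout : ∀ γ, γ ∉ Z → f γ = 0) :
    Summable f ∧ Tendsto (fun σ : ℝ => σ * ∫ τ, D σ τ) (𝓝[>] 0) (𝓝 (∑' γ, f γ)) := by
  have hev : ∀ᶠ σ : ℝ in 𝓝[>] 0, 0 < σ ∧ σ ≤ 1 := Ioc_mem_nhdsGT one_pos
  -- lower bounds
  have hlow : ∀ T : Finset ℝ, ∀ b : ℝ, b < ∑ γ ∈ T, f γ → ∀ᶠ σ : ℝ in 𝓝[>] 0, b < σ * ∫ τ, D σ τ := by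
    intro T b hb
    have e : ∑ γ ∈ T, f γ = ∑ γ ∈ T.filter (· ∈ Z), f γ := by
      rw [Finset.sum_filter]
      refine Finset.sum_congr rfl fun γ _ => ?_
      split_ifs with h
      · rfl
      · exact hout γ h
    rw [e] at hb
    obtain ⟨ε, hε, hlim⟩ := k5_win (fun σ h1 h2 => (hI σ h1 h2).1) hwin (T.filter (· ∈ Z)) fun γ hγ => (Finset.mem_filter.1 hγ).2
    filter_upwards [(hlim ε hε le_rfl).eventually (lt_mem_nhds hb), hev] with σ h1 h2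
    refine h1.trans_le (mul_le_mul_of_nonneg_left ?_ h2.1.le)
    exact setIntegral_le_integral (hI σ h2.1 h2.2).1 (Eventually.of_forall (h0 σ))
  -- the sum
  have hsum : Summable f := by
    refine summable_of_sum_le hf (c := K) fun T => ?_
    by_contra hcon
    push Not at hcon
    obtain ⟨σ, h1, h2⟩ := ((hlow T K hcon).and hev).exists
    have h3 := (hI σ h2.1 h2.2).2
    have h4 : σ * ∫ τ, D σ τ ≤ σ * (K / σ) := mul_le_mul_of_nonneg_left h3 h2.1.le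
    rw [mul_div_cancel₀ _ h2.1.ne'] at h4
    linarith
  refine ⟨hsum, ?_⟩
  rw [tendsto_order]
  constructor
  · intro b hb
    obtain ⟨T, hT⟩ := (hsum.hasSum.eventually (lt_mem_nhds hb)).exists
    exact hlow T b hT
  · intro b hb
    obtain ⟨e, he, heb⟩ : ∃ e : ℝ, 0 < e ∧ ∑' γ, f γ + 3 * e < b := ⟨(b - ∑' γ, f γ) / 4, by linarith, by linarith⟩
    obtain ⟨R, hR, htl⟩ := htail e he
    obtain ⟨ε, hε, hlim⟩ := k5_win (fun σ h1 h2 => (hI σ h1 h2).1) hwin (hfin R).toFinset fun γ hγ => ((hfin R).mem_toFinset.1 hγ).2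
    have hle : ∑ γ ∈ (hfin R).toFinset, f γ ≤ ∑' γ, f γ := hsum.sum_le_tsum _ fun γ _ => hf γ
    set T := (hfin R).toFinset with hT
    set S : Set ℝ := Icc (-R) R \ ⋃ γ ∈ T, Ioo (γ - ε) (γ + ε) with hS
    have hSc : IsCompact S := isCompact_Icc.diff (isOpen_biUnion fun _ _ => isOpen_Ioo)
    obtain ⟨σ0, C, hσ0, hC, hmd⟩ := hmid S hSc (by
      intro y hy hyZ
      apply hy.2
      simp only [mem_iUnion]
      refine ⟨y, (hfin R).mem_toFinset.2 ⟨hy.1, hyZ⟩, ?_⟩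
      constructor <;> linarith)
    have hlim2 : Tendsto (fun σ : ℝ => σ * (C * volume.real S)) (𝓝[>] 0) (𝓝 0) := by
      have h1 : Tendsto (fun σ : ℝ => σ * (C * volume.real S)) (𝓝 0) (𝓝 (0 * (C * volume.real S))) := tendsto_id.mul_const _
      rw [zero_mul] at h1
      exact h1.mono_left nhdsWithin_le_nhds
    have hev2 : ∀ᶠ σ : ℝ in 𝓝[>] 0, 0 < σ ∧ σ ≤ σ0 := Ioc_mem_nhdsGT hσ0
    filter_upwards [hev, hev2, (hlim ε hε le_rfl).eventually (gt_mem_nhds (show ∑ γ ∈ T, f γ < ∑ γ ∈ T, f γ + e by linarith)),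
      hlim2.eventually (gt_mem_nhds he)] with σ h1 h2 h3 h4
    obtain ⟨hi, -⟩ := hI σ h1.1 h1.2
    have hTl : MeasurableSet {τ : ℝ | R < |τ|} := measurableSet_lt measurable_const measurable_norm
    have hun : (univ : Set ℝ) = Win T ε ∪ (S ∪ {τ : ℝ | R < |τ|}) := by
      ext x
      simp only [mem_univ, true_iff]
      by_cases hx : R < |x|
      · exact Or.inr (Or.inr hx)
      · have hx' : x ∈ Icc (-R) R := by
          rw [mem_Icc, ← abs_le]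
          exact not_lt.1 hx
        by_cases hx2 : x ∈ ⋃ γ ∈ T, Ioo (γ - ε) (γ + ε)
        · refine Or.inl ?_
          unfold Win
          simp only [mem_iUnion] at hx2 ⊢
          obtain ⟨γ, hγ, hx3⟩ := hx2
          exact ⟨γ, hγ, hx3.1.le, hx3.2.le⟩
        · exact Or.inr (Or.inl ⟨hx', hx2⟩)
    have hb1 : ∫ τ, D σ τ ≤ (∫ τ in Win T ε, D σ τ) + ((∫ τ in S, D σ τ) + ∫ τ in {τ : ℝ | R < |τ|}, D σ τ) := by
      have e1 : ∫ τ, D σ τ = ∫ τ in Win T ε ∪ (S ∪ {τ : ℝ | R < |τ|}), D σ τ := by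
        rw [← hun, setIntegral_univ]
      rw [e1]
      refine (k5_union hi (h0 σ) (win_meas T ε) (hSc.measurableSet.union hTl)).trans ?_
      have := k5_union hi (h0 σ) hSc.measurableSet hTl
      linarith
    have hb2 : ∫ τ in S, D σ τ ≤ C * volume.real S := by
      have h5 := norm_setIntegral_le_of_norm_le_const (μ := volume) (s := S) (f := D σ) (C := C) hSc.measure_lt_top fun y hy => by
        rw [Real.norm_eq_abs, abs_of_nonneg (h0 σ y)]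
        exact hmd σ h2.1 h2.2 y hy
      exact (le_abs_self _).trans h5
    have hb3 := htl σ h1.1 h1.2
    have hb4 : σ * ∫ τ in {τ : ℝ | R < |τ|}, D σ τ ≤ e := by
      have h5 : σ * ∫ τ in {τ : ℝ | R < |τ|}, D σ τ ≤ σ * (e / σ) := mul_le_mul_of_nonneg_left hb3 h1.1.le
      rwa [mul_div_cancel₀ _ h1.1.ne'] at h5
    have hb5 : σ * ∫ τ in S, D σ τ ≤ σ * (C * volume.real S) := mul_le_mul_of_nonneg_left hb2 h1.1.le
    have hb6 := mul_le_mul_of_nonneg_left hb1 h1.1.le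
    rw [mul_add, mul_add] at hb6
    linarith

end Pool.Agent.Helper85.CR
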